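import Mathlib

set_option autoImplicit false

/-!
# The finite computation

A state describes a disc (a triangle `a b c` together with the vertices drawn in it): `x, y, z` bound the capped
distances `ab, ac, bc` (`1` exactly for an edge, `3` for no information), bit `pat i j k` of `m` says that the
colours `i j k` of the corners extend to the disc, and if `h` then there is a triangle with a vertex inside the disc at
capped distance at most `p, q, r` from the corners.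
-/

namespace Pool.Agent.Lib.MP_8e2345_co.ST

structure St where
  m : ℕ
  x : ℕ
  y : ℕ
  z : ℕ
  h : Bool
  p : ℕ
  q : ℕ
  r : ℕ

/-- the 21 states -/
def states : List St :=
  [⟨31,3,3,3,false,3,3,3⟩, ⟨28,1,3,3,false,3,3,3⟩, ⟨26,3,1,3,false,3,3,3⟩, ⟨22,3,3,1,false,3,3,3⟩,
   ⟨24,1,1,2,false,3,3,3⟩, ⟨20,1,2,1,false,3,3,3⟩, ⟨18,2,1,1,false,3,3,3⟩, ⟨16,1,1,1,false,3,3,3⟩,
   ⟨15,2,2,2,false,3,3,3⟩, ⟨6,2,2,1,true,2,0,0⟩, ⟨10,2,1,2,true,0,2,0⟩, ⟨12,1,2,2,true,0,0,2⟩,
   ⟨29,3,2,2,true,1,2,0⟩, ⟨29,3,2,2,true,2,1,0⟩, ⟨27,2,3,2,true,1,0,2⟩, ⟨27,2,3,2,true,2,0,1⟩,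
   ⟨23,2,2,3,true,0,1,2⟩, ⟨23,2,2,3,true,0,2,1⟩, ⟨30,3,3,3,true,1,1,2⟩, ⟨30,3,3,3,true,1,2,1⟩,
   ⟨30,3,3,3,true,2,1,1⟩]

/-- colour pattern of three vertices -/
def pat (i j k : Fin 3) : ℕ :=
  if i = j then (if j = k then 0 else 1) else (if i = k then 2 else (if j = k then 3 else 4))

/-- representatives of the patterns -/
def rep : ℕ → Fin 3 × Fin 3 × Fin 3
  | 0 => (0, 0, 0)
  | 1 => (0, 0, 1)
  | 2 => (0, 1, 0)
  | 3 => (1, 0, 0)
  | _ => (0, 1, 2)

theorem rep_ok : ∀ i j k u : Fin 3, ∃ v : Fin 3,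
    pat i j v = pat (rep (pat i j k)).1 (rep (pat i j k)).2.1 u ∧
    pat i k v = pat (rep (pat i j k)).1 (rep (pat i j k)).2.2 u ∧
    pat j k v = pat (rep (pat i j k)).2.1 (rep (pat i j k)).2.2 u := by
  decide

/-- capped distances of four vertices `a, b, c, w` -/
structure D6 where
  ab : ℕ
  ac : ℕ
  bc : ℕ
  aw : ℕ
  bw : ℕ
  cw : ℕ

/-- one step of the closure under the triangle inequality -/
def close (d : D6) : D6 :=
  { ab := min d.ab (min (d.aw + d.bw) (d.ac + d.bc))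
    ac := min d.ac (min (d.aw + d.cw) (d.ab + d.bc))
    bc := min d.bc (min (d.bw + d.cw) (d.ab + d.ac))
    aw := min d.aw (min (d.ab + d.bw) (d.ac + d.cw))
    bw := min d.bw (min (d.ab + d.aw) (d.bc + d.cw))
    cw := min d.cw (min (d.ac + d.aw) (d.bc + d.bw)) }

/-- distances of a triangle from `a, b, c, w` -/
structure Q where
  a : ℕ
  b : ℕ
  c : ℕ
  w : ℕ

/-- improve the distances of a triangle -/
def ext (d : D6) (t : Q) : Q :=
  { a := min (min t.a (t.b + d.ab)) (min (t.c + d.ac) (t.w + d.aw))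
    b := min (min t.b (t.a + d.ab)) (min (t.c + d.bc) (t.w + d.bw))
    c := min (min t.c (t.a + d.ac)) (min (t.b + d.bc) (t.w + d.cw))
    w := min (min t.w (t.a + d.aw)) (min (t.b + d.bw) (t.c + d.cw)) }

/-- two triangles are too close -/
def conf (s t : Q) : Bool :=
  Nat.ble (s.a + t.a) 2 || Nat.ble (s.b + t.b) 2 || Nat.ble (s.c + t.c) 2 || Nat.ble (s.w + t.w) 2

def conf' : Option Q → Option Q → Bool
  | some s, some t => conf s t
  | _, _ => false

/-- the distances are compatible with the state `s` -/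
def tle (s : St) : Option Q → Bool
  | some t => Nat.ble t.a s.p && Nat.ble t.b s.q && Nat.ble t.c s.r
  | none => false

/-- the pattern `p` extends to the union of the three discs -/
def newbit (s1 s2 s3 : St) (p : ℕ) : Bool :=
  [(0 : Fin 3), 1, 2].any fun u =>
    s3.m.testBit (pat (rep p).1 (rep p).2.1 u) && s2.m.testBit (pat (rep p).1 (rep p).2.2 u) &&
      s1.m.testBit (pat (rep p).2.1 (rep p).2.2 u)

/-- the distances between the corners, from three discs `b c w`, `a c w`, `a b w` -/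
def dists (s1 s2 s3 : St) : D6 :=
  close ⟨s3.x, s2.x, s1.x, min s2.y s3.y, min s1.y s3.z, min s1.z s2.z⟩

/-- is there an edge? -/
def e1 (n : ℕ) : Bool := Nat.beq n 1

/-- flags of the edges are consistent -/
def cons (s1 s2 s3 : St) : Bool :=
  (e1 s1.y == e1 s3.z) && (e1 s1.z == e1 s2.z) && (e1 s2.y == e1 s3.y)

def t1 (s1 : St) (d : D6) : Option Q := bif s1.h then some (ext d ⟨3, s1.p, s1.q, s1.r⟩) else none
def t2 (s2 : St) (d : D6) : Option Q := bif s2.h then some (ext d ⟨s2.p, 3, s2.q, s2.r⟩) else none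
def t3 (s3 : St) (d : D6) : Option Q := bif s3.h then some (ext d ⟨s3.p, s3.q, 3, s3.r⟩) else none

/-- triangles `a b w`, `a c w`, `b c w`, `a b c` -/
def b3 (s3 : St) : Bool := e1 s3.x && e1 s3.y && e1 s3.z
def b2 (s2 : St) : Bool := e1 s2.x && e1 s2.y && e1 s2.z
def b1 (s1 : St) : Bool := e1 s1.x && e1 s1.y && e1 s1.z
def b0 (s1 s2 s3 : St) : Bool := e1 s3.x && e1 s2.x && e1 s1.x

/-- the (at most one) triangle of corners that contains `w` -/
def bw (s1 s2 s3 : St) (d : D6) : Option Q :=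
  bif b3 s3 then some (ext d ⟨0, 0, 3, 0⟩) else
  bif b2 s2 then some (ext d ⟨0, 3, 0, 0⟩) else
  bif b1 s1 then some (ext d ⟨3, 0, 0, 0⟩) else none

def bc (s1 s2 s3 : St) (d : D6) : Option Q :=
  bif b0 s1 s2 s3 then some (ext d ⟨0, 0, 0, 3⟩) else none

/-- two triangles of corners -/
def two (s1 s2 s3 : St) : Bool :=
  (b3 s3 && (b2 s2 || b1 s1 || b0 s1 s2 s3)) ||
  (b2 s2 && (b1 s1 || b0 s1 s2 s3)) || (b1 s1 && b0 s1 s2 s3)

/-- two triangles are too close -/
def conflict (T1 T2 T3 B C : Option Q) : Bool :=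
  conf' T1 T2 || conf' T1 T3 || conf' T2 T3 || conf' T1 B || conf' T2 B || conf' T3 B ||
    conf' T1 C || conf' T2 C || conf' T3 C

/-- the state `s` describes the union -/
def dom (s1 s2 s3 : St) (d : D6) (T1 T2 T3 B : Option Q) (s : St) : Bool :=
  (e1 s.x == e1 s3.x) && (e1 s.y == e1 s2.x) && (e1 s.z == e1 s1.x) &&
  Nat.ble d.ab s.x && Nat.ble d.ac s.y && Nat.ble d.bc s.z &&
  (!s.h || (tle s T1 || tle s T2 || tle s T3 || tle s B)) &&
  ([0, 1, 2, 3, 4].all fun p => !(s.m.testBit p) || newbit s1 s2 s3 p)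

def good (s1 s2 s3 : St) : Bool :=
  !(cons s1 s2 s3) || two s1 s2 s3 ||
  conflict (t1 s1 (dists s1 s2 s3)) (t2 s2 (dists s1 s2 s3)) (t3 s3 (dists s1 s2 s3))
    (bw s1 s2 s3 (dists s1 s2 s3)) (bc s1 s2 s3 (dists s1 s2 s3)) ||
  states.any (dom s1 s2 s3 (dists s1 s2 s3) (t1 s1 (dists s1 s2 s3)) (t2 s2 (dists s1 s2 s3))
    (t3 s3 (dists s1 s2 s3)) (bw s1 s2 s3 (dists s1 s2 s3)))

theorem all_good : (states.all fun s1 => states.all fun s2 => states.all fun s3 => good s1 s2 s3) = true := by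
  decide +kernel

end Pool.Agent.Lib.MP_8e2345_co.ST
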