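import Mathlib

set_option autoImplicit false

/-!
# Graphs drawn in a triangle, as in a stacked triangulation
-/

namespace Pool.Agent.Lib.MP_8e2345_co.ST

/-- `Drawn G a b c S`: the set `S` of vertices is drawn in the triangle `a b c`, as in a stacked triangulation: `S` is
empty, or a vertex `w` of `S` cuts the triangle `a b c` into the triangles `b c w`, `a c w`, `a b w`, the rest of `S`
consists of the sets `A`, `B`, `C` drawn in these triangles, and a vertex drawn in one of these three triangles has
neighbours only inside of it and at its corners. -/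
inductive Drawn {V : Type} (G : SimpleGraph V) : V → V → V → Set V → Prop
  | empty (a b c : V) : Drawn G a b c ∅
  | cut (a b c w : V) (A B C : Set V) :
      Drawn G b c w A → Drawn G a c w B → Drawn G a b w C →
      List.Pairwise Disjoint [({a, b, c} : Set V), {w}, A, B, C] →
      (∀ u ∈ A, ∀ v, G.Adj u v → v ∈ A ∪ {b, c, w}) →
      (∀ u ∈ B, ∀ v, G.Adj u v → v ∈ B ∪ {a, c, w}) →
      (∀ u ∈ C, ∀ v, G.Adj u v → v ∈ C ∪ {a, b, w}) →
      Drawn G a b c ({w} ∪ A ∪ B ∪ C)

/-- A subgraph of a stacked triangulation (a triangulation obtained from a triangle by putting new vertices into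
triangular faces and joining them to the three corners of the face). -/
def PartialStacked {V : Type} (G : SimpleGraph V) : Prop :=
  ∃ a b c : V, a ≠ b ∧ a ≠ c ∧ b ≠ c ∧ Drawn G a b c {v | v ≠ a ∧ v ≠ b ∧ v ≠ c}

/-- Any two distinct triangles are at distance at least `d`. -/
def TrianglesApart {V : Type} (G : SimpleGraph V) (d : ℕ∞) : Prop :=
  ∀ A B : Finset V, G.IsNClique 3 A → G.IsNClique 3 B → A ≠ B →
    ∀ a ∈ A, ∀ b ∈ B, d ≤ G.edist a b

end Pool.Agent.Lib.MP_8e2345_co.ST
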