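import Pool.Agent.Lib.MP_8e2345_co.ST.Defs

set_option autoImplicit false

/-!
# An example with 28 vertices

`G28` is a subgraph of a stacked triangulation with exactly four triangles, any two at distance at least `2`, and is not
3-colourable.
-/

namespace Pool.Agent.Lib.MP_8e2345_co.ST

/-- the adjacency matrix, the rows as binary numbers -/
def rows : List ℕ :=
    [294, 13, 8211, 50, 76, 73, 5296, 832, 51329, 3200, 4672, 4864, 11328, 53252, 598272,
    68296960, 8798208, 17137664, 33751040, 7356416, 134774784, 138936320, 94896128, 37814272,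
    37879808, 25427968, 138444800, 70254592]

/-- adjacency -/
def ad (u v : Fin 28) : Bool := (rows.getD u.val 0).testBit v.val

theorem ad_symm : ∀ u v : Fin 28, ad u v = ad v u := by decide +kernel

theorem ad_irrefl : ∀ u : Fin 28, ad u u = false := by decide +kernel

/-- the graph -/
def G28 : SimpleGraph (Fin 28) where
  Adj u v := ad u v = true
  symm := ⟨fun u v h => by rw [ad_symm]; exact h⟩
  loopless := ⟨fun u h => by rw [ad_irrefl] at h; exact absurd h Bool.false_ne_true⟩

/-! ### The graph is a subgraph of a stacked triangulation -/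

/-- trees of cuts -/
inductive Tr
  | E
  | N (w : Fin 28) (A B C : Tr)

/-- the vertices of a tree -/
def mem : Tr → Fin 28 → Bool
  | .E, _ => false
  | .N w A B C, v => (v == w) || mem A v || mem B v || mem C v

/-- the neighbours of `v` are in `A` or are one of `x, y, z` -/
def nbr (A : Tr) (x y z v : Fin 28) : Bool :=
  (List.finRange 28).all fun u => !(ad v u) || mem A u || (u == x) || (u == y) || (u == z)

/-- the tree is correct -/
def chk : Tr → Fin 28 → Fin 28 → Fin 28 → Bool
  | .E, _, _, _ => true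
  | .N w A B C, a, b, c =>
    chk A b c w && chk B a c w && chk C a b w &&
    !(a == w) && !(b == w) && !(c == w) &&
    (List.finRange 28).all fun v =>
      (!(mem A v) || (!(a == v) && !(b == v) && !(c == v) && !(w == v) && !(mem B v) && !(mem C v)
        && nbr A b c w v)) &&
      (!(mem B v) || (!(a == v) && !(b == v) && !(c == v) && !(w == v) && !(mem C v)
        && nbr B a c w v)) &&
      (!(mem C v) || (!(a == v) && !(b == v) && !(c == v) && !(w == v) && nbr C a b w v))

theorem nbr_ok {A : Tr} {x y z v : Fin 28} (h : nbr A x y z v = true) (u : Fin 28)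
    (hu : G28.Adj v u) : u ∈ {u | mem A u = true} ∪ ({x, y, z} : Set (Fin 28)) := by
  unfold nbr at h
  rw [List.all_eq_true] at h
  have h1 := h u (List.mem_finRange u)
  have h2 : ad v u = true := hu
  rw [h2] at h1
  simp only [Bool.not_true, Bool.false_or, Bool.or_eq_true, beq_iff_eq] at h1
  simp only [Set.mem_union, Set.mem_insert_iff, Set.mem_singleton_iff, Set.mem_ofPred_eq]
  tauto

theorem chk_drawn : ∀ (t : Tr) (a b c : Fin 28), chk t a b c = true →
    Drawn G28 a b c {v | mem t v = true}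
  | .E, a, b, c, _ => by
    have : {v : Fin 28 | mem .E v = true} = ∅ := by
      ext v
      simp [mem]
    rw [this]
    exact Drawn.empty a b c
  | .N w A B C, a, b, c, h => by
    unfold chk at h
    simp only [Bool.and_eq_true, List.all_eq_true, Bool.or_eq_true, Bool.not_eq_true',
      beq_eq_false_iff_ne, ne_eq] at h
    obtain ⟨⟨⟨⟨⟨⟨h1, h2⟩, h3⟩, h4⟩, h5⟩, h6⟩, h7⟩ := h
    have kA := chk_drawn A b c w h1
    have kB := chk_drawn B a c w h2
    have kC := chk_drawn C a b w h3
    have this : {v : Fin 28 | mem (.N w A B C) v = true} =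
        {w} ∪ {v | mem A v = true} ∪ {v | mem B v = true} ∪ {v | mem C v = true} := by
      ext v
      simp [mem, or_assoc]
    rw [this]
    have fA : ∀ v, mem A v = true → (a ≠ v ∧ b ≠ v ∧ c ≠ v ∧ w ≠ v ∧ mem B v = false ∧
        mem C v = false) ∧ nbr A b c w v = true := by
      intro v hv
      have h8 := (h7 v (List.mem_finRange v)).1.1
      rw [hv] at h8
      simp only [Bool.true_eq_false, false_or] at h8
      obtain ⟨⟨⟨⟨⟨⟨e1, e2⟩, e3⟩, e4⟩, e5⟩, e6⟩, e7⟩ := h8
      exact ⟨⟨e1, e2, e3, e4, e5, e6⟩, e7⟩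
    have fB : ∀ v, mem B v = true → (a ≠ v ∧ b ≠ v ∧ c ≠ v ∧ w ≠ v ∧ mem C v = false) ∧
        nbr B a c w v = true := by
      intro v hv
      have h8 := (h7 v (List.mem_finRange v)).1.2
      rw [hv] at h8
      simp only [Bool.true_eq_false, false_or] at h8
      obtain ⟨⟨⟨⟨⟨e1, e2⟩, e3⟩, e4⟩, e5⟩, e7⟩ := h8
      exact ⟨⟨e1, e2, e3, e4, e5⟩, e7⟩
    have fC : ∀ v, mem C v = true → (a ≠ v ∧ b ≠ v ∧ c ≠ v ∧ w ≠ v) ∧
        nbr C a b w v = true := by
      intro v hv
      have h8 := (h7 v (List.mem_finRange v)).2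
      rw [hv] at h8
      simp only [Bool.true_eq_false, false_or] at h8
      obtain ⟨⟨⟨⟨e1, e2⟩, e3⟩, e4⟩, e7⟩ := h8
      exact ⟨⟨e1, e2, e3, e4⟩, e7⟩
    refine Drawn.cut a b c w _ _ _ kA kB kC ?_ (fun u hu v huv => nbr_ok (fA u hu).2 v huv)
      (fun u hu v huv => nbr_ok (fB u hu).2 v huv) (fun u hu v huv => nbr_ok (fC u hu).2 v huv)
    have key : ∀ (X : Tr) (y : Fin 28), (∀ v, mem X v = true → y ≠ v) → ¬ mem X y = true :=
      fun X y hX hy => hX y hy rfl
    have gA : ∀ v, mem A v = true → ¬ mem B v = true := fun v hv hv' => by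
      have := (fA v hv).1.2.2.2.2.1
      rw [hv'] at this
      exact absurd this (by decide)
    have gA' : ∀ v, mem A v = true → ¬ mem C v = true := fun v hv hv' => by
      have := (fA v hv).1.2.2.2.2.2
      rw [hv'] at this
      exact absurd this (by decide)
    have gB : ∀ v, mem B v = true → ¬ mem C v = true := fun v hv hv' => by
      have := (fB v hv).1.2.2.2.2
      rw [hv'] at this
      exact absurd this (by decide)
    simp only [List.pairwise_cons, List.mem_cons, List.not_mem_nil, or_false, forall_eq_or_imp,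
      forall_eq, false_imp_iff, implies_true, List.Pairwise.nil, and_true,
      Set.disjoint_left, Set.mem_insert_iff, Set.mem_singleton_iff, Set.mem_ofPred_eq]
    exact ⟨⟨⟨h4, h5, h6⟩, ⟨key A a fun v hv => (fA v hv).1.1, key A b fun v hv => (fA v hv).1.2.1,
      key A c fun v hv => (fA v hv).1.2.2.1⟩, ⟨key B a fun v hv => (fB v hv).1.1,
      key B b fun v hv => (fB v hv).1.2.1, key B c fun v hv => (fB v hv).1.2.2.1⟩,
      ⟨key C a fun v hv => (fC v hv).1.1, key C b fun v hv => (fC v hv).1.2.1,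
      key C c fun v hv => (fC v hv).1.2.2.1⟩⟩,
      ⟨key A w fun v hv => (fA v hv).1.2.2.2.1, key B w fun v hv => (fB v hv).1.2.2.2.1,
      key C w fun v hv => (fC v hv).1.2.2.2⟩, ⟨gA, gA'⟩, gB⟩

/-- the cuts of the graph -/
def tree : Tr :=
    (.N 14 .E (.N 2 .E .E (.N 6 .E (.N 0 (.N 3 (.N 5 .E .E .E) (.N 1 .E .E .E) (.N 4 .E .E .E))
    .E .E) (.N 12 .E (.N 9 (.N 10 .E .E .E) (.N 11 .E .E .E) (.N 7 .E .E .E)) .E))) (.N 16 (.N
    22 .E (.N 17 (.N 25 (.N 24 .E .E .E) (.N 18 .E .E .E) (.N 23 .E .E .E)) .E .E) (.N 19 .E (.N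
    27 (.N 21 .E .E .E) (.N 20 .E .E .E) (.N 26 .E .E .E)) .E)) .E .E))

theorem partialStacked : PartialStacked G28 := by
  refine ⟨8, 15, 13, by decide, by decide, by decide, ?_⟩
  have h1 : chk tree 8 15 13 = true := by decide +kernel
  have h2 : ∀ v : Fin 28, (v ≠ 8 ∧ v ≠ 15 ∧ v ≠ 13) ↔ mem tree v = true := by decide +kernel
  have h3 : {v : Fin 28 | v ≠ 8 ∧ v ≠ 15 ∧ v ≠ 13} = {v | mem tree v = true} := by
    ext v
    exact h2 v
  rw [h3]
  exact chk_drawn tree 8 15 13 h1

/-! ### The triangles -/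

/-- the number of the triangle of a vertex (`0` if it is in no triangle) -/
def lb (v : Fin 28) : ℕ :=
  ([1, 1, 1, 0, 0, 0, 2, 0, 0, 0, 2, 0, 2, 0, 0, 0, 3, 3, 3, 4, 0, 4, 4, 0, 0, 0, 0, 0] : List ℕ).getD v.val 0

theorem lb_tri : ∀ a b c : Fin 28, ad a b = true → ad a c = true → ad b c = true →
    lb a = lb b ∧ lb a = lb c ∧ lb a ≠ 0 := by decide +kernel

theorem lb_adj : ∀ a b : Fin 28, ad a b = true → lb a ≠ 0 → lb b ≠ 0 → lb a = lb b := by
  decide +kernel

theorem lb_card : ∀ a : Fin 28, lb a ≠ 0 →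
    (Finset.univ.filter fun v : Fin 28 => lb v = lb a).card = 3 := by decide +kernel

theorem tri_eq {A : Finset (Fin 28)} (hA : G28.IsNClique 3 A) {a : Fin 28} (ha : a ∈ A) :
    lb a ≠ 0 ∧ A = Finset.univ.filter fun v : Fin 28 => lb v = lb a := by
  obtain ⟨x, y, z, h1, h2, h3, rfl⟩ := SimpleGraph.is3Clique_iff.1 hA
  have g1 : ad x y = true := h1
  have g2 : ad x z = true := h2
  have g3 : ad y z = true := h3
  obtain ⟨e1, e2, e3⟩ := lb_tri x y z g1 g2 g3
  have hlb : ∀ v ∈ ({x, y, z} : Finset (Fin 28)), lb v = lb x := by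
    intro v hv
    simp only [Finset.mem_insert, Finset.mem_singleton] at hv
    rcases hv with rfl | rfl | rfl
    · rfl
    · exact e1.symm
    · exact e2.symm
  have h4 : lb a ≠ 0 := by rw [hlb a ha]; exact e3
  refine ⟨h4, ?_⟩
  refine Finset.eq_of_subset_of_card_le ?_ ?_
  · intro v hv
    rw [Finset.mem_filter]
    exact ⟨Finset.mem_univ _, by rw [hlb v hv, hlb a ha]⟩
  · rw [lb_card a h4, hA.card_eq]

theorem apart : TrianglesApart G28 2 := by
  intro A B hA hB hne a ha b hb
  obtain ⟨h1, h2⟩ := tri_eq hA ha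
  obtain ⟨h3, h4⟩ := tri_eq hB hb
  have h5 : lb a ≠ lb b := by
    intro h
    apply hne
    rw [h2, h4, h]
  have h6 : a ≠ b := by
    rintro rfl
    exact h5 rfl
  have h7 : ¬ G28.Adj a b := fun h => h5 (lb_adj a b h h1 h3)
  by_contra hlt
  rw [not_le] at hlt
  have h8 : G28.edist a b ≤ 1 := by simpa using hlt
  rcases eq_or_lt_of_le h8 with h9 | h9
  · exact h7 (SimpleGraph.edist_eq_one_iff_adj.1 h9)
  · rw [Order.lt_one_iff, SimpleGraph.edist_eq_zero_iff] at h9
    exact h6 h9

/-! ### The graph is not 3-colourable -/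

/-- the smaller neighbours of the vertices, as offsets from the vertex before -/
def back : List (List ℕ) :=
    [[], [0], [1, 0], [1], [0, 1], [4, 1], [1, 0], [0], [0, 7], [1], [3, 0], [2, 1], [0, 1, 5],
    [10, 0], [5, 0], [6, 1], [1], [0, 1], [1, 0], [4], [4, 0], [1], [2, 0], [6, 0], [1, 6], [1,
    0, 6], [10, 3], [0, 6, 5]]

/-- the search for a colouring fails; `l` contains the colours of the earlier vertices -/
def srch : List (List ℕ) → List ℕ → Bool
  | [], _ => false
  | nb :: rest, l =>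
    ((nb.any fun j => Nat.beq (l.getD j 3) 0) || srch rest (0 :: l)) &&
    ((nb.any fun j => Nat.beq (l.getD j 3) 1) || srch rest (1 :: l)) &&
    ((nb.any fun j => Nat.beq (l.getD j 3) 2) || srch rest (2 :: l))

/-- the colours of the first `k` vertices -/
def lst (g : ℕ → ℕ) : ℕ → List ℕ
  | 0 => []
  | k + 1 => g k :: lst g k

theorem lst_getD (g : ℕ → ℕ) : ∀ (k j : ℕ), j < k → (lst g k).getD j 3 = g (k - 1 - j)
  | 0, j, h => absurd h (Nat.not_lt_zero _)
  | k + 1, 0, _ => by simp [lst]
  | k + 1, j + 1, h => by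
    have h1 := lst_getD g k j (by omega)
    have h2 : k + 1 - 1 - (j + 1) = k - 1 - j := by omega
    rw [h2, ← h1]
    simp [lst]

theorem srch_false (g : ℕ → ℕ) (hg : ∀ i, g i < 3) : ∀ (bs : List (List ℕ)) (k : ℕ),
    (∀ (i : ℕ) (nb : List ℕ), bs[i]? = some nb → ∀ j ∈ nb, j < k + i ∧ g (k + i) ≠ g (k + i - 1 - j)) →
    srch bs (lst g k) = false
  | [], k, _ => rfl
  | nb :: rest, k, h => by
    have h1 : srch rest (g k :: lst g k) = false := by
      have h2 := srch_false g hg rest (k + 1) (by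
        intro i nb' hi j hj
        have h3 := h (i + 1) nb' (by simpa using hi) j hj
        have e1 : k + (i + 1) = k + 1 + i := by omega
        rw [e1] at h3
        exact h3)
      exact h2
    have h4 : (nb.any fun j => Nat.beq ((lst g k).getD j 3) (g k)) = false := by
      rw [List.any_eq_false]
      intro j hj
      obtain ⟨h5, h6⟩ := h 0 nb (by simp) j hj
      rw [Nat.add_zero] at h5 h6
      rw [lst_getD g k j h5]
      intro h7
      exact h6 (Nat.eq_of_beq_eq_true h7).symm
    have h5 := hg k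
    unfold srch
    have h6 : g k = 0 ∨ g k = 1 ∨ g k = 2 := by omega
    rcases h6 with h6 | h6 | h6
    · rw [h6] at h1 h4
      rw [h4, h1]
      rfl
    · rw [h6] at h1 h4
      rw [h4, h1]
      simp
    · rw [h6] at h1 h4
      rw [h4, h1]
      simp

theorem srch_true : srch back [] = true := by decide +kernel

theorem back_ok : ∀ i : Fin 28, ∀ j ∈ back.getD i.val [], j < i.val ∧
    (rows.getD i.val 0).testBit (i.val - 1 - j) = true := by decide +kernel

theorem not_colorable : ¬ G28.Colorable 3 := by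
  rintro ⟨φ⟩
  let g : ℕ → ℕ := fun i => if h : i < 28 then (φ ⟨i, h⟩ : Fin 3).val else 0
  have hg : ∀ i, g i < 3 := by
    intro i
    show (if h : i < 28 then (φ ⟨i, h⟩ : Fin 3).val else 0) < 3
    split_ifs
    · exact (φ _).isLt
    · norm_num
  have h1 := srch_false g hg back 0 (by
    intro i nb hi j hj
    have hlen : i < 28 := by
      have := (List.getElem?_eq_some_iff.1 hi).1
      exact this
    have h2 := back_ok ⟨i, hlen⟩ j (by
      rw [List.getD_eq_getElem?_getD, hi]
      exact hj)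
    obtain ⟨h3, h4⟩ := h2
    rw [Nat.zero_add]
    refine ⟨h3, ?_⟩
    have h5 : i - 1 - j < 28 := by omega
    have h6 : G28.Adj ⟨i, hlen⟩ ⟨i - 1 - j, h5⟩ := h4
    have h7 := φ.valid h6
    show (if h : i < 28 then (φ ⟨i, h⟩ : Fin 3).val else 0) ≠
      (if h : i - 1 - j < 28 then (φ ⟨i - 1 - j, h⟩ : Fin 3).val else 0)
    rw [dif_pos hlen, dif_pos h5]
    exact fun h => h7 (Fin.ext h))
  have h2 : lst g 0 = [] := rfl
  rw [h2, srch_true] at h1
  exact absurd h1 (by decide)

end Pool.Agent.Lib.MP_8e2345_co.ST
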