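import Pool.Agent.Lib.MP_8e2345_co.ST.Sound

set_option autoImplicit false

/-!
# The induction
-/

namespace Pool.Agent.Lib.MP_8e2345_co.ST

variable {V : Type} {G : SimpleGraph V}

/-- the empty disc -/
theorem base (a b c : V) (hab : a ≠ b) (hac : a ≠ c) (hbc : b ≠ c) :
    ∃ s ∈ states, Sat G a b c ∅ s := by
  classical
  have c1 := cd_le G a b
  have c2 := cd_le G a c
  have c3 := cd_le G b c
  have e1 := cd_adj G (u := a) (v := b)
  have e2 := cd_adj G (u := a) (v := c)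
  have e3 := cd_adj G (u := b) (v := c)
  have t1 := cd_tri G a b c
  have t2 := cd_tri G a c b
  have t3 := cd_tri G b a c
  have k1 := cd_comm G a b
  have k2 := cd_comm G a c
  have k3 := cd_comm G b c
  have key : ∀ s : St, s.h = false → cd G a b ≤ s.x → cd G a c ≤ s.y → cd G b c ≤ s.z →
      (s.x = 1 ↔ G.Adj a b) → (s.y = 1 ↔ G.Adj a c) → (s.z = 1 ↔ G.Adj b c) →
      (∀ i j k : Fin 3, s.m.testBit (pat i j k) = true → (s.x = 1 → i ≠ j) ∧ (s.y = 1 → i ≠ k) ∧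
        (s.z = 1 → j ≠ k)) → Sat G a b c ∅ s := by
    intro s hh h1 h2 h3 h4 h5 h6 h7
    refine ⟨h1, h2, h3, h4, h5, h6, ?_, ?_⟩
    · intro i j k hm
      obtain ⟨g1, g2, g3⟩ := h7 i j k hm
      refine ⟨fun v => if v = a then i else if v = b then j else k, by simp, by
        simp [hab.symm], by simp [hac.symm, hbc.symm], ?_⟩
      intro u hu v hv huv
      simp only [Set.empty_union, Set.mem_insert_iff, Set.mem_singleton_iff] at hu hv
      rcases hu with rfl | rfl | rfl <;> rcases hv with rfl | rfl | rfl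
      · exact absurd huv (G.loopless.irrefl _)
      · simpa [hab.symm] using g1 (h4.2 huv)
      · simpa [hac.symm, hbc.symm] using g2 (h5.2 huv)
      · simpa [hab.symm] using (g1 (h4.2 huv.symm)).symm
      · exact absurd huv (G.loopless.irrefl _)
      · simpa [hab.symm, hac.symm, hbc.symm] using g3 (h6.2 huv)
      · simpa [hac.symm, hbc.symm] using (g2 (h5.2 huv.symm)).symm
      · simpa [hab.symm, hac.symm, hbc.symm] using (g3 (h6.2 huv.symm)).symm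
      · exact absurd huv (G.loopless.irrefl _)
    · intro h
      rw [hh] at h
      exact absurd h Bool.false_ne_true
  by_cases h1 : G.Adj a b <;> by_cases h2 : G.Adj a c <;> by_cases h3 : G.Adj b c
  · exact ⟨⟨16,1,1,1,false,3,3,3⟩, by simp [states], key _ rfl (e1.2 h1).le (e2.2 h2).le (e3.2 h3).le
      (by simp [h1]) (by simp [h2]) (by simp [h3]) (by decide)⟩
  · exact ⟨⟨24,1,1,2,false,3,3,3⟩, by simp [states], key _ rfl (e1.2 h1).le (e2.2 h2).le
      (by have := e1.2 h1; have := e2.2 h2; show cd G b c ≤ 2; omega)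
      (by simp [h1]) (by simp [h2]) (by simp [h3]) (by decide)⟩
  · exact ⟨⟨20,1,2,1,false,3,3,3⟩, by simp [states], key _ rfl (e1.2 h1).le
      (by have := e1.2 h1; have := e3.2 h3; show cd G a c ≤ 2; omega) (e3.2 h3).le
      (by simp [h1]) (by simp [h2]) (by simp [h3]) (by decide)⟩
  · exact ⟨⟨28,1,3,3,false,3,3,3⟩, by simp [states], key _ rfl (e1.2 h1).le c2 c3
      (by simp [h1]) (by simp [h2]) (by simp [h3]) (by decide)⟩
  · exact ⟨⟨18,2,1,1,false,3,3,3⟩, by simp [states], key _ rfl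
      (by have := e2.2 h2; have := e3.2 h3; show cd G a b ≤ 2; omega) (e2.2 h2).le (e3.2 h3).le
      (by simp [h1]) (by simp [h2]) (by simp [h3]) (by decide)⟩
  · exact ⟨⟨26,3,1,3,false,3,3,3⟩, by simp [states], key _ rfl c1 (e2.2 h2).le c3
      (by simp [h1]) (by simp [h2]) (by simp [h3]) (by decide)⟩
  · exact ⟨⟨22,3,3,1,false,3,3,3⟩, by simp [states], key _ rfl c1 c2 (e3.2 h3).le
      (by simp [h1]) (by simp [h2]) (by simp [h3]) (by decide)⟩
  · exact ⟨⟨31,3,3,3,false,3,3,3⟩, by simp [states], key _ rfl c1 c2 c3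
      (by simp [h1]) (by simp [h2]) (by simp [h3]) (by decide)⟩

theorem e1_eq {m : ℕ} : e1 m = true ↔ m = 1 := by
  unfold e1
  constructor
  · exact Nat.eq_of_beq_eq_true
  · rintro rfl
    rfl

theorem e1_iff {m n : ℕ} {P : Prop} (hm : m = 1 ↔ P) (hn : n = 1 ↔ P) : (e1 m == e1 n) = true := by
  rw [beq_iff_eq, Bool.eq_iff_iff, e1_eq, e1_eq, hm, hn]

theorem e1_true {m : ℕ} {P : Prop} (hm : m = 1 ↔ P) (h : e1 m = true) : P := hm.1 (e1_eq.1 h)

theorem disj_facts {a b c w : V} {A B C : Set V}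
    (h : List.Pairwise Disjoint [({a, b, c} : Set V), {w}, A, B, C]) :
    (a ≠ w ∧ b ≠ w ∧ c ≠ w) ∧
    (∀ x ∈ A, x ≠ a ∧ x ≠ b ∧ x ≠ c ∧ x ≠ w ∧ x ∉ B ∧ x ∉ C) ∧
    (∀ x ∈ B, x ≠ a ∧ x ≠ b ∧ x ≠ c ∧ x ≠ w ∧ x ∉ A ∧ x ∉ C) ∧
    (∀ x ∈ C, x ≠ a ∧ x ≠ b ∧ x ≠ c ∧ x ≠ w ∧ x ∉ A ∧ x ∉ B) := by
  simp only [List.pairwise_cons, List.mem_cons, List.not_mem_nil, or_false, forall_eq_or_imp,
    forall_eq, false_imp_iff, implies_true, List.Pairwise.nil, and_true,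
    Set.disjoint_left, Set.mem_insert_iff, Set.mem_singleton_iff] at h
  obtain ⟨⟨h1, h2, h3, h4⟩, ⟨h5, h6, h7⟩, ⟨h8, h9⟩, h10⟩ := h
  have key : ∀ {X : Set V} {y : V}, y ∉ X → ∀ x ∈ X, x ≠ y := by
    rintro X y hy x hx rfl
    exact hy hx
  refine ⟨h1, ?_, ?_, ?_⟩
  · intro x hx
    exact ⟨key h2.1 x hx, key h2.2.1 x hx, key h2.2.2 x hx, key h5 x hx, fun e => h8 hx e,
      fun e => h9 hx e⟩
  · intro x hx
    exact ⟨key h3.1 x hx, key h3.2.1 x hx, key h3.2.2 x hx, key h6 x hx, fun e => h8 e hx,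
      fun e => h10 hx e⟩
  · intro x hx
    exact ⟨key h4.1 x hx, key h4.2.1 x hx, key h4.2.2 x hx, key h7 x hx, fun e => h9 e hx,
      fun e => h10 e hx⟩

/-- the optional triangle `T` is realised by a triangle with the property `P` -/
def TOK (G : SimpleGraph V) (a b c w : V) (T : Option Q) (P : Finset V → Prop) : Prop :=
  ∀ q, T = some q → ∃ τ : Finset V, G.IsNClique 3 τ ∧ P τ ∧ QOK G τ a b c w q

theorem TOK.conf (hF : Far G) {a b c w : V} {T T' : Option Q} {P P' : Finset V → Prop}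
    (h : TOK G a b c w T P) (h' : TOK G a b c w T' P')
    (hne : ∀ τ τ', G.IsNClique 3 τ → G.IsNClique 3 τ' → P τ → P' τ' → τ ≠ τ') : conf' T T' = false := by
  cases hT : T with
  | none => rfl
  | some s =>
    cases hT' : T' with
    | none => rfl
    | some t =>
      obtain ⟨τ, k1, k2, k3⟩ := h s hT
      obtain ⟨τ', k1', k2', k3'⟩ := h' t hT'
      exact hF.conf k1 k1' (hne τ τ' k1 k1' k2 k2') k3 k3'

theorem TOK.tle {a b c w : V} {T : Option Q} {P : Finset V → Prop} (h : TOK G a b c w T P)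
    {s : St} (hs : tle s T = true) :
    ∃ τ : Finset V, G.IsNClique 3 τ ∧ P τ ∧ TD G τ a s.p ∧ TD G τ b s.q ∧ TD G τ c s.r := by
  cases hT : T with
  | none => rw [hT] at hs; exact absurd hs Bool.false_ne_true
  | some t =>
    rw [hT] at hs
    obtain ⟨τ, k1, k2, k3⟩ := h t hT
    unfold Pool.Agent.Lib.MP_8e2345_co.ST.tle at hs
    simp only [Bool.and_eq_true, Nat.ble_eq] at hs
    exact ⟨τ, k1, k2, k3.a.mono hs.1.1, k3.b.mono hs.1.2, k3.c.mono hs.2⟩

theorem pat_mem : ∀ i j k : Fin 3, pat i j k ∈ [0, 1, 2, 3, 4] := by decide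

theorem glue {a b c w : V} {A B C : Set V} (hab : a ≠ b) (hac : a ≠ c) (hbc : b ≠ c)
    (hdisj : List.Pairwise Disjoint [({a, b, c} : Set V), {w}, A, B, C])
    (hA : ∀ u ∈ A, ∀ v, G.Adj u v → v ∈ A ∪ {b, c, w})
    (hB : ∀ u ∈ B, ∀ v, G.Adj u v → v ∈ B ∪ {a, c, w})
    (hC : ∀ u ∈ C, ∀ v, G.Adj u v → v ∈ C ∪ {a, b, w})
    {i j k l : Fin 3} {f1 f2 f3 : V → Fin 3}
    (e1 : f1 b = j ∧ f1 c = k ∧ f1 w = l) (e2 : f2 a = i ∧ f2 c = k ∧ f2 w = l)
    (e3 : f3 a = i ∧ f3 b = j ∧ f3 w = l)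
    (h1 : ∀ u ∈ A ∪ {b, c, w}, ∀ v ∈ A ∪ {b, c, w}, G.Adj u v → f1 u ≠ f1 v)
    (h2 : ∀ u ∈ B ∪ {a, c, w}, ∀ v ∈ B ∪ {a, c, w}, G.Adj u v → f2 u ≠ f2 v)
    (h3 : ∀ u ∈ C ∪ {a, b, w}, ∀ v ∈ C ∪ {a, b, w}, G.Adj u v → f3 u ≠ f3 v) :
    ∃ f : V → Fin 3, f a = i ∧ f b = j ∧ f c = k ∧
      ∀ u ∈ ({w} ∪ A ∪ B ∪ C) ∪ {a, b, c}, ∀ v ∈ ({w} ∪ A ∪ B ∪ C) ∪ {a, b, c}, G.Adj u v →
        f u ≠ f v := by
  classical
  obtain ⟨⟨haw, hbw, hcw⟩, dA, dB, dC⟩ := disj_facts hdisj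
  have naA : a ∉ A := fun h => (dA a h).1 rfl
  have nbA : b ∉ A := fun h => (dA b h).2.1 rfl
  have ncA : c ∉ A := fun h => (dA c h).2.2.1 rfl
  have nwA : w ∉ A := fun h => (dA w h).2.2.2.1 rfl
  have naB : a ∉ B := fun h => (dB a h).1 rfl
  have nbB : b ∉ B := fun h => (dB b h).2.1 rfl
  have ncB : c ∉ B := fun h => (dB c h).2.2.1 rfl
  have nwB : w ∉ B := fun h => (dB w h).2.2.2.1 rfl
  have naC : a ∉ C := fun h => (dC a h).1 rfl
  have nbC : b ∉ C := fun h => (dC b h).2.1 rfl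
  have ncC : c ∉ C := fun h => (dC c h).2.2.1 rfl
  have nwC : w ∉ C := fun h => (dC w h).2.2.2.1 rfl
  set f : V → Fin 3 := fun x => if x ∈ A then f1 x else if x ∈ B then f2 x else if x ∈ C then f3 x
    else if x = a then i else if x = b then j else if x = c then k else l with hf
  have fa : f a = i := by simp only [hf, naA, naB, naC, if_false, if_true]
  have fb : f b = j := by simp only [hf, nbA, nbB, nbC, hab.symm, if_false, if_true]
  have fc : f c = k := by simp only [hf, ncA, ncB, ncC, hac.symm, hbc.symm, if_false, if_true]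
  have fw : f w = l := by
    simp only [hf, nwA, nwB, nwC, haw.symm, hbw.symm, hcw.symm, if_false]
  have g1 : ∀ x ∈ A ∪ {b, c, w}, f x = f1 x := by
    intro x hx
    simp only [Set.mem_union, Set.mem_insert_iff, Set.mem_singleton_iff] at hx
    rcases hx with hx | rfl | rfl | rfl
    · simp only [hf, hx, if_true]
    · rw [fb, e1.1]
    · rw [fc, e1.2.1]
    · rw [fw, e1.2.2]
  have g2 : ∀ x ∈ B ∪ {a, c, w}, f x = f2 x := by
    intro x hx
    simp only [Set.mem_union, Set.mem_insert_iff, Set.mem_singleton_iff] at hx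
    rcases hx with hx | rfl | rfl | rfl
    · simp only [hf, hx, (dB x hx).2.2.2.2.1, if_true, if_false]
    · rw [fa, e2.1]
    · rw [fc, e2.2.1]
    · rw [fw, e2.2.2]
  have g3 : ∀ x ∈ C ∪ {a, b, w}, f x = f3 x := by
    intro x hx
    simp only [Set.mem_union, Set.mem_insert_iff, Set.mem_singleton_iff] at hx
    rcases hx with hx | rfl | rfl | rfl
    · simp only [hf, hx, (dC x hx).2.2.2.2.1, (dC x hx).2.2.2.2.2, if_true, if_false]
    · rw [fa, e3.1]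
    · rw [fb, e3.2.1]
    · rw [fw, e3.2.2]
  refine ⟨f, fa, fb, fc, ?_⟩
  intro u hu v hv huv
  have key : (u ∈ A ∪ {b, c, w} ∧ v ∈ A ∪ {b, c, w}) ∨ (u ∈ B ∪ {a, c, w} ∧ v ∈ B ∪ {a, c, w}) ∨
      (u ∈ C ∪ {a, b, w} ∧ v ∈ C ∪ {a, b, w}) := by
    by_cases uA : u ∈ A
    · exact Or.inl ⟨Or.inl uA, hA u uA v huv⟩
    by_cases uB : u ∈ B
    · exact Or.inr (Or.inl ⟨Or.inl uB, hB u uB v huv⟩)
    by_cases uC : u ∈ C
    · exact Or.inr (Or.inr ⟨Or.inl uC, hC u uC v huv⟩)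
    by_cases vA : v ∈ A
    · exact Or.inl ⟨hA v vA u huv.symm, Or.inl vA⟩
    by_cases vB : v ∈ B
    · exact Or.inr (Or.inl ⟨hB v vB u huv.symm, Or.inl vB⟩)
    by_cases vC : v ∈ C
    · exact Or.inr (Or.inr ⟨hC v vC u huv.symm, Or.inl vC⟩)
    have hne := huv.ne
    simp only [Set.mem_union, Set.mem_insert_iff, Set.mem_singleton_iff, uA, uB, uC, vA, vB, vC,
      or_false, false_or] at hu hv ⊢
    rcases hu with rfl | rfl | rfl | rfl <;> rcases hv with rfl | rfl | rfl | rfl <;>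
      first
      | exact absurd rfl hne
      | simp
  rcases key with ⟨hu', hv'⟩ | ⟨hu', hv'⟩ | ⟨hu', hv'⟩
  · rw [g1 u hu', g1 v hv']
    exact h1 u hu' v hv' huv
  · rw [g2 u hu', g2 v hv']
    exact h2 u hu' v hv' huv
  · rw [g3 u hu', g3 v hv']
    exact h3 u hu' v hv' huv

end Pool.Agent.Lib.MP_8e2345_co.ST
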