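import Pool.Agent.Lib.MP_8e2345_co.ST.Defs
import Pool.Agent.Lib.MP_8e2345_co.ST.Chk

set_option autoImplicit false

/-!
# Soundness of the computation
-/

namespace Pool.Agent.Lib.MP_8e2345_co.ST

open Classical in
/-- the capped distance -/
noncomputable def cd {V : Type} (G : SimpleGraph V) (u v : V) : ℕ :=
  if u = v then 0 else if G.Adj u v then 1 else if ∃ w, G.Adj u w ∧ G.Adj w v then 2 else 3

section
variable {V : Type} (G : SimpleGraph V)

theorem cd_self (u : V) : cd G u u = 0 := by simp [cd]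

theorem cd_comm (u v : V) : cd G u v = cd G v u := by
  unfold cd
  by_cases h1 : u = v
  · rw [if_pos h1, if_pos h1.symm]
  rw [if_neg h1, if_neg (Ne.symm h1)]
  by_cases h2 : G.Adj u v
  · rw [if_pos h2, if_pos h2.symm]
  rw [if_neg h2, if_neg (show ¬ G.Adj v u from fun h => h2 h.symm)]
  by_cases h3 : ∃ w, G.Adj u w ∧ G.Adj w v
  · have h4 : ∃ w, G.Adj v w ∧ G.Adj w u := by
      obtain ⟨w, h, h'⟩ := h3
      exact ⟨w, h'.symm, h.symm⟩
    rw [if_pos h3, if_pos h4]
  · have h4 : ¬ ∃ w, G.Adj v w ∧ G.Adj w u := by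
      rintro ⟨w, h, h'⟩
      exact h3 ⟨w, h'.symm, h.symm⟩
    rw [if_neg h3, if_neg h4]

theorem cd_le (u v : V) : cd G u v ≤ 3 := by
  unfold cd
  split_ifs <;> omega

theorem cd_adj {u v : V} : cd G u v = 1 ↔ G.Adj u v := by
  unfold cd
  split_ifs with h1 h2 h3
  · subst h1
    simp
  · simp [h2]
  · simp [h2]
  · simp [h2]

theorem cd_pos {u v : V} (h : u ≠ v) : 1 ≤ cd G u v := by
  unfold cd
  rw [if_neg h]
  split_ifs <;> omega

theorem cd_tri (u v w : V) : cd G u w ≤ cd G u v + cd G v w := by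
  by_cases h1 : u = v
  · subst h1
    omega
  by_cases h2 : v = w
  · subst h2
    omega
  by_cases h3 : G.Adj u v
  · by_cases h4 : G.Adj v w
    · have : cd G u w ≤ 2 := by
        unfold cd
        split_ifs with h5 h6 h7
        · omega
        · omega
        · omega
        · exact absurd ⟨v, h3, h4⟩ h7
      have := cd_pos G h1
      have := cd_pos G h2
      omega
    · have h5 : 2 ≤ cd G v w := by
        have := cd_pos G h2
        have : cd G v w ≠ 1 := fun h => h4 ((cd_adj G).1 h)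
        omega
      have := cd_pos G h1
      have := cd_le G u w
      omega
  · have h5 : 2 ≤ cd G u v := by
      have := cd_pos G h1
      have : cd G u v ≠ 1 := fun h => h3 ((cd_adj G).1 h)
      omega
    have := cd_pos G h2
    have := cd_le G u w
    omega

/-- some vertex of the triangle is at capped distance at most `n` from `x` -/
def TD (τ : Finset V) (x : V) (n : ℕ) : Prop := ∃ v ∈ τ, cd G v x ≤ n

variable {G}

theorem TD.mono {τ : Finset V} {x : V} {m n : ℕ} (h : TD G τ x m) (hmn : m ≤ n) : TD G τ x n := by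
  obtain ⟨v, hv, h⟩ := h
  exact ⟨v, hv, h.trans hmn⟩

theorem TD.add {τ : Finset V} {x y : V} {m n : ℕ} (h : TD G τ y m) (h' : cd G y x ≤ n) :
    TD G τ x (m + n) := by
  obtain ⟨v, hv, h⟩ := h
  exact ⟨v, hv, (cd_tri G v y x).trans (Nat.add_le_add h h')⟩

theorem TD.min {τ : Finset V} {x : V} {m n : ℕ} (h : TD G τ x m) (h' : TD G τ x n) :
    TD G τ x (min m n) := by
  rcases le_total m n with h1 | h1
  · rw [Nat.min_eq_left h1]
    exact h
  · rw [Nat.min_eq_right h1]
    exact h'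

theorem TD.of_mem {τ : Finset V} {x : V} (h : x ∈ τ) : TD G τ x 0 :=
  ⟨x, h, by rw [cd_self]⟩

theorem TD.three {τ : Finset V} (h : G.IsNClique 3 τ) (x : V) : TD G τ x 3 := by
  have : τ.Nonempty := by
    rw [← Finset.card_pos, h.card_eq]
    norm_num
  obtain ⟨v, hv⟩ := this
  exact ⟨v, hv, cd_le G v x⟩

/-- the disc `a b c` with the vertices `S` is described by the state `s` -/
structure Sat (G : SimpleGraph V) (a b c : V) (S : Set V) (s : St) : Prop where
  ab : cd G a b ≤ s.x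
  ac : cd G a c ≤ s.y
  bc : cd G b c ≤ s.z
  ab1 : s.x = 1 ↔ G.Adj a b
  ac1 : s.y = 1 ↔ G.Adj a c
  bc1 : s.z = 1 ↔ G.Adj b c
  col : ∀ i j k : Fin 3, s.m.testBit (pat i j k) = true → ∃ f : V → Fin 3, f a = i ∧ f b = j ∧
    f c = k ∧ ∀ u ∈ S ∪ {a, b, c}, ∀ v ∈ S ∪ {a, b, c}, G.Adj u v → f u ≠ f v
  tri : s.h = true → ∃ τ : Finset V, G.IsNClique 3 τ ∧ (∃ u ∈ τ, u ∈ S) ∧ TD G τ a s.p ∧
    TD G τ b s.q ∧ TD G τ c s.r

/-- the distances `d` are upper bounds for the capped distances of `a, b, c, w` -/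
structure DOK (G : SimpleGraph V) (a b c w : V) (d : D6) : Prop where
  ab : cd G a b ≤ d.ab
  ac : cd G a c ≤ d.ac
  bc : cd G b c ≤ d.bc
  aw : cd G a w ≤ d.aw
  bw : cd G b w ≤ d.bw
  cw : cd G c w ≤ d.cw

theorem DOK.close {a b c w : V} {d : D6} (h : DOK G a b c w d) : DOK G a b c w (close d) := by
  obtain ⟨h1, h2, h3, h4, h5, h6⟩ := h
  have c1 := cd_comm G a b
  have c2 := cd_comm G a c
  have c3 := cd_comm G b c
  have c4 := cd_comm G a w
  have c5 := cd_comm G b w
  have c6 := cd_comm G c w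
  have t1 := cd_tri G a w b
  have t2 := cd_tri G a c b
  have t3 := cd_tri G a w c
  have t4 := cd_tri G a b c
  have t5 := cd_tri G b w c
  have t6 := cd_tri G b a c
  have t7 := cd_tri G a b w
  have t8 := cd_tri G a c w
  have t9 := cd_tri G b a w
  have t10 := cd_tri G b c w
  have t11 := cd_tri G c a w
  have t12 := cd_tri G c b w
  refine ⟨?_, ?_, ?_, ?_, ?_, ?_⟩
  · show cd G a b ≤ min d.ab (min (d.aw + d.bw) (d.ac + d.bc))
    omega
  · show cd G a c ≤ min d.ac (min (d.aw + d.cw) (d.ab + d.bc))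
    omega
  · show cd G b c ≤ min d.bc (min (d.bw + d.cw) (d.ab + d.ac))
    omega
  · show cd G a w ≤ min d.aw (min (d.ab + d.bw) (d.ac + d.cw))
    omega
  · show cd G b w ≤ min d.bw (min (d.ab + d.aw) (d.bc + d.cw))
    omega
  · show cd G c w ≤ min d.cw (min (d.ac + d.aw) (d.bc + d.bw))
    omega

/-- the numbers `t` are upper bounds for the capped distances of the triangle `τ` -/
structure QOK (G : SimpleGraph V) (τ : Finset V) (a b c w : V) (t : Q) : Prop where
  a : TD G τ a t.a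
  b : TD G τ b t.b
  c : TD G τ c t.c
  w : TD G τ w t.w

theorem QOK.ext {τ : Finset V} {a b c w : V} {d : D6} {t : Q} (hd : DOK G a b c w d)
    (h : QOK G τ a b c w t) : QOK G τ a b c w (ext d t) := by
  obtain ⟨h1, h2, h3, h4, h5, h6⟩ := hd
  have c1 : cd G b a ≤ d.ab := by rw [cd_comm]; exact h1
  have c2 : cd G c a ≤ d.ac := by rw [cd_comm]; exact h2
  have c3 : cd G c b ≤ d.bc := by rw [cd_comm]; exact h3
  have c4 : cd G w a ≤ d.aw := by rw [cd_comm]; exact h4
  have c5 : cd G w b ≤ d.bw := by rw [cd_comm]; exact h5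
  have c6 : cd G w c ≤ d.cw := by rw [cd_comm]; exact h6
  exact ⟨(h.a.min (h.b.add c1)).min ((h.c.add c2).min (h.w.add c4)),
    (h.b.min (h.a.add h1)).min ((h.c.add c3).min (h.w.add c5)),
    (h.c.min (h.a.add h2)).min ((h.b.add h3).min (h.w.add c6)),
    (h.w.min (h.a.add h4)).min ((h.b.add h5).min (h.c.add h6))⟩

/-- triangles are far apart -/
def Far (G : SimpleGraph V) : Prop :=
  ∀ A B : Finset V, G.IsNClique 3 A → G.IsNClique 3 B → A ≠ B → ∀ u ∈ A, ∀ v ∈ B, 3 ≤ cd G u v

theorem Far.two (hF : Far G) {A B : Finset V} (hA : G.IsNClique 3 A) (hB : G.IsNClique 3 B)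
    (hne : A ≠ B) {x : V} {m n : ℕ} (h : TD G A x m) (h' : TD G B x n) : ¬ m + n ≤ 2 := by
  obtain ⟨u, hu, h⟩ := h
  obtain ⟨v, hv, h'⟩ := h'
  have h1 := hF A B hA hB hne u hu v hv
  have h2 := cd_tri G u x v
  rw [cd_comm G x v] at h2
  omega

theorem Far.conf (hF : Far G) {A B : Finset V} (hA : G.IsNClique 3 A) (hB : G.IsNClique 3 B)
    (hne : A ≠ B) {a b c w : V} {s t : Q} (hs : QOK G A a b c w s) (ht : QOK G B a b c w t) :
    conf s t = false := by
  have h1 := hF.two hA hB hne hs.a ht.a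
  have h2 := hF.two hA hB hne hs.b ht.b
  have h3 := hF.two hA hB hne hs.c ht.c
  have h4 := hF.two hA hB hne hs.w ht.w
  have key : ∀ n : ℕ, ¬ n ≤ 2 → Nat.ble n 2 = false := by
    intro n hn
    rw [← Bool.not_eq_true, Nat.ble_eq]
    exact hn
  unfold Pool.Agent.Lib.MP_8e2345_co.ST.conf
  rw [key _ h1, key _ h2, key _ h3, key _ h4]
  rfl

/-- no two triangles on four vertices -/
theorem Far.diamond (hF : Far G) {a b u v : V} (hab : G.Adj a b) (hau : G.Adj a u)
    (hbu : G.Adj b u) (hav : G.Adj a v) (hbv : G.Adj b v) (huv : u ≠ v) : False := by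
  classical
  have h1 : G.IsNClique 3 {a, b, u} := SimpleGraph.is3Clique_triple_iff.2 ⟨hab, hau, hbu⟩
  have h2 : G.IsNClique 3 {a, b, v} := SimpleGraph.is3Clique_triple_iff.2 ⟨hab, hav, hbv⟩
  have hne : ({a, b, u} : Finset V) ≠ {a, b, v} := by
    intro h
    have : u ∈ ({a, b, v} : Finset V) := by rw [← h]; simp
    simp only [Finset.mem_insert, Finset.mem_singleton] at this
    rcases this with h | h | h
    · exact hau.ne h.symm
    · exact hbu.ne h.symm
    · exact huv h
  have := hF _ _ h1 h2 hne a (by simp) a (by simp)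
  rw [cd_self] at this
  omega

end

end Pool.Agent.Lib.MP_8e2345_co.ST
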