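import Pool.Agent.Lib.MP_8e2345_co.ST.Main

set_option autoImplicit false

/-!
# The induction step
-/

namespace Pool.Agent.Lib.MP_8e2345_co.ST

variable {V : Type} {G : SimpleGraph V}

theorem good_of {s1 s2 s3 : St} (m1 : s1 ∈ states) (m2 : s2 ∈ states)
    (m3 : s3 ∈ states) : good s1 s2 s3 = true := by
  have h := all_good
  rw [List.all_eq_true] at h
  have h := h s1 m1
  rw [List.all_eq_true] at h
  have h := h s2 m2
  rw [List.all_eq_true] at h
  exact h s3 m3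

theorem cons_of {a b c w : V} {A B C : Set V} {s1 s2 s3 : St} (h1 : Sat G b c w A s1)
    (h2 : Sat G a c w B s2) (h3 : Sat G a b w C s3) : cons s1 s2 s3 = true := by
  unfold cons
  rw [e1_iff h1.ac1 h3.bc1, e1_iff h1.bc1 h2.bc1, e1_iff h2.ac1 h3.ac1]
  rfl

theorem two_of (hF : Far G) {a b c w : V} {A B C : Set V} (hab : a ≠ b) (hac : a ≠ c)
    (hbc : b ≠ c) (haw : a ≠ w) (hbw : b ≠ w) (hcw : c ≠ w) {s1 s2 s3 : St}
    (h1 : Sat G b c w A s1) (h2 : Sat G a c w B s2) (h3 : Sat G a b w C s3) :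
    two s1 s2 s3 = false := by
  rw [← Bool.not_eq_true]
  intro h
  have q3 : b3 s3 = true → G.Adj a b ∧ G.Adj a w ∧ G.Adj b w := by
    intro h
    unfold b3 at h
    simp only [Bool.and_eq_true] at h
    exact ⟨e1_true h3.ab1 h.1.1, e1_true h3.ac1 h.1.2, e1_true h3.bc1 h.2⟩
  have q2 : b2 s2 = true → G.Adj a c ∧ G.Adj a w ∧ G.Adj c w := by
    intro h
    unfold b2 at h
    simp only [Bool.and_eq_true] at h
    exact ⟨e1_true h2.ab1 h.1.1, e1_true h2.ac1 h.1.2, e1_true h2.bc1 h.2⟩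
  have q1 : b1 s1 = true → G.Adj b c ∧ G.Adj b w ∧ G.Adj c w := by
    intro h
    unfold b1 at h
    simp only [Bool.and_eq_true] at h
    exact ⟨e1_true h1.ab1 h.1.1, e1_true h1.ac1 h.1.2, e1_true h1.bc1 h.2⟩
  have q0 : b0 s1 s2 s3 = true → G.Adj a b ∧ G.Adj a c ∧ G.Adj b c := by
    intro h
    unfold b0 at h
    simp only [Bool.and_eq_true] at h
    exact ⟨e1_true h3.ab1 h.1.1, e1_true h2.ab1 h.1.2, e1_true h1.ab1 h.2⟩
  unfold two at h
  simp only [Bool.or_eq_true, Bool.and_eq_true] at h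
  rcases h with (⟨k, (k' | k') | k'⟩ | ⟨k, k' | k'⟩) | ⟨k, k'⟩
  · obtain ⟨x1, x2, x3⟩ := q3 k
    obtain ⟨y1, y2, y3⟩ := q2 k'
    exact hF.diamond x2 x1 x3.symm y1 y3.symm hbc
  · obtain ⟨x1, x2, x3⟩ := q3 k
    obtain ⟨y1, y2, y3⟩ := q1 k'
    exact hF.diamond x3 x1.symm x2.symm y1 y3.symm hac
  · obtain ⟨x1, x2, x3⟩ := q3 k
    obtain ⟨y1, y2, y3⟩ := q0 k'
    exact hF.diamond x1 x2 x3 y2 y3 hcw.symm
  · obtain ⟨x1, x2, x3⟩ := q2 k
    obtain ⟨y1, y2, y3⟩ := q1 k'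
    exact hF.diamond x3 x1.symm x2.symm y1.symm y2.symm hab
  · obtain ⟨x1, x2, x3⟩ := q2 k
    obtain ⟨y1, y2, y3⟩ := q0 k'
    exact hF.diamond x1 x2 x3 y1 y3.symm hbw.symm
  · obtain ⟨x1, x2, x3⟩ := q1 k
    obtain ⟨y1, y2, y3⟩ := q0 k'
    exact hF.diamond x1 x2 x3 y1.symm y2.symm haw.symm

theorem step (hF : Far G) {a b c w : V} {A B C : Set V} (hab : a ≠ b) (hac : a ≠ c)
    (hbc : b ≠ c) (hdisj : List.Pairwise Disjoint [({a, b, c} : Set V), {w}, A, B, C])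
    (hA : ∀ u ∈ A, ∀ v, G.Adj u v → v ∈ A ∪ {b, c, w})
    (hB : ∀ u ∈ B, ∀ v, G.Adj u v → v ∈ B ∪ {a, c, w})
    (hC : ∀ u ∈ C, ∀ v, G.Adj u v → v ∈ C ∪ {a, b, w})
    {s1 s2 s3 : St} (m1 : s1 ∈ states) (m2 : s2 ∈ states) (m3 : s3 ∈ states)
    (h1 : Sat G b c w A s1) (h2 : Sat G a c w B s2) (h3 : Sat G a b w C s3) :
    ∃ s ∈ states, Sat G a b c ({w} ∪ A ∪ B ∪ C) s := by
  classical
  obtain ⟨⟨haw, hbw, hcw⟩, dA, dB, dC⟩ := disj_facts hdisj
  have hgood := good_of m1 m2 m3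
  have hcons := cons_of h1 h2 h3
  have htwo := two_of hF hab hac hbc haw hbw hcw h1 h2 h3
  have hd : DOK G a b c w (dists s1 s2 s3) := by
    unfold dists
    refine DOK.close ⟨h3.ab, h2.ab, h1.ab, le_min h2.ac h3.ac, le_min h1.ac h3.bc,
      le_min h1.bc h2.bc⟩
  set d := dists s1 s2 s3 with hdd
  have k1 : TOK G a b c w (t1 s1 d) (fun τ => ∃ u ∈ τ, u ∈ A) := by
    intro q hq
    unfold t1 at hq
    cases hh : s1.h with
    | false => rw [hh] at hq; exact absurd hq (by simp)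
    | true =>
      rw [hh] at hq
      obtain ⟨τ, g1, g2, g3, g4, g5⟩ := h1.tri hh
      have : q = ext d ⟨3, s1.p, s1.q, s1.r⟩ := by simpa using hq.symm
      rw [this]
      exact ⟨τ, g1, g2, QOK.ext hd ⟨TD.three g1 a, g3, g4, g5⟩⟩
  have k2 : TOK G a b c w (t2 s2 d) (fun τ => ∃ u ∈ τ, u ∈ B) := by
    intro q hq
    unfold t2 at hq
    cases hh : s2.h with
    | false => rw [hh] at hq; exact absurd hq (by simp)
    | true =>
      rw [hh] at hq
      obtain ⟨τ, g1, g2, g3, g4, g5⟩ := h2.tri hh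
      have : q = ext d ⟨s2.p, 3, s2.q, s2.r⟩ := by simpa using hq.symm
      rw [this]
      exact ⟨τ, g1, g2, QOK.ext hd ⟨g3, TD.three g1 b, g4, g5⟩⟩
  have k3 : TOK G a b c w (t3 s3 d) (fun τ => ∃ u ∈ τ, u ∈ C) := by
    intro q hq
    unfold t3 at hq
    cases hh : s3.h with
    | false => rw [hh] at hq; exact absurd hq (by simp)
    | true =>
      rw [hh] at hq
      obtain ⟨τ, g1, g2, g3, g4, g5⟩ := h3.tri hh
      have : q = ext d ⟨s3.p, s3.q, 3, s3.r⟩ := by simpa using hq.symm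
      rw [this]
      exact ⟨τ, g1, g2, QOK.ext hd ⟨g3, g4, TD.three g1 c, g5⟩⟩
  have kb : TOK G a b c w (bw s1 s2 s3 d) (fun τ => τ ⊆ {a, b, c, w} ∧ w ∈ τ) := by
    intro q hq
    unfold bw at hq
    cases hh3 : b3 s3 with
    | true =>
      rw [hh3] at hq
      have hq' : q = ext d ⟨0, 0, 3, 0⟩ := by simpa using hq.symm
      unfold b3 at hh3
      simp only [Bool.and_eq_true] at hh3
      have hcl : G.IsNClique 3 ({a, b, w} : Finset V) := SimpleGraph.is3Clique_triple_iff.2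
        ⟨e1_true h3.ab1 hh3.1.1, e1_true h3.ac1 hh3.1.2, e1_true h3.bc1 hh3.2⟩
      rw [hq']
      refine ⟨{a, b, w}, hcl, ⟨?_, by simp⟩, QOK.ext hd ⟨TD.of_mem (by simp), TD.of_mem (by simp),
        TD.three hcl c, TD.of_mem (by simp)⟩⟩
      intro x hx
      simp only [Finset.mem_insert, Finset.mem_singleton] at hx ⊢
      tauto
    | false =>
      rw [hh3] at hq
      cases hh2 : b2 s2 with
      | true =>
        rw [hh2] at hq
        have hq' : q = ext d ⟨0, 3, 0, 0⟩ := by simpa using hq.symm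
        unfold b2 at hh2
        simp only [Bool.and_eq_true] at hh2
        have hcl : G.IsNClique 3 ({a, c, w} : Finset V) := SimpleGraph.is3Clique_triple_iff.2
          ⟨e1_true h2.ab1 hh2.1.1, e1_true h2.ac1 hh2.1.2, e1_true h2.bc1 hh2.2⟩
        rw [hq']
        refine ⟨{a, c, w}, hcl, ⟨?_, by simp⟩, QOK.ext hd ⟨TD.of_mem (by simp), TD.three hcl b,
          TD.of_mem (by simp), TD.of_mem (by simp)⟩⟩
        intro x hx
        simp only [Finset.mem_insert, Finset.mem_singleton] at hx ⊢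
        tauto
      | false =>
        rw [hh2] at hq
        cases hh1 : b1 s1 with
        | true =>
          rw [hh1] at hq
          have hq' : q = ext d ⟨3, 0, 0, 0⟩ := by simpa using hq.symm
          unfold b1 at hh1
          simp only [Bool.and_eq_true] at hh1
          have hcl : G.IsNClique 3 ({b, c, w} : Finset V) := SimpleGraph.is3Clique_triple_iff.2
            ⟨e1_true h1.ab1 hh1.1.1, e1_true h1.ac1 hh1.1.2, e1_true h1.bc1 hh1.2⟩
          rw [hq']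
          refine ⟨{b, c, w}, hcl, ⟨?_, by simp⟩, QOK.ext hd ⟨TD.three hcl a, TD.of_mem (by simp),
            TD.of_mem (by simp), TD.of_mem (by simp)⟩⟩
          intro x hx
          simp only [Finset.mem_insert, Finset.mem_singleton] at hx ⊢
          tauto
        | false =>
          rw [hh1] at hq
          exact absurd hq (by simp)
  have kc : TOK G a b c w (bc s1 s2 s3 d) (fun τ => τ ⊆ {a, b, c, w}) := by
    intro q hq
    unfold bc at hq
    cases hh0 : b0 s1 s2 s3 with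
    | true =>
      rw [hh0] at hq
      have hq' : q = ext d ⟨0, 0, 0, 3⟩ := by simpa using hq.symm
      unfold b0 at hh0
      simp only [Bool.and_eq_true] at hh0
      have hcl : G.IsNClique 3 ({a, b, c} : Finset V) := SimpleGraph.is3Clique_triple_iff.2
        ⟨e1_true h3.ab1 hh0.1.1, e1_true h2.ab1 hh0.1.2, e1_true h1.ab1 hh0.2⟩
      rw [hq']
      refine ⟨{a, b, c}, hcl, ?_, QOK.ext hd ⟨TD.of_mem (by simp), TD.of_mem (by simp),
        TD.of_mem (by simp), TD.three hcl w⟩⟩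
      intro x hx
      simp only [Finset.mem_insert, Finset.mem_singleton] at hx ⊢
      tauto
    | false =>
      rw [hh0] at hq
      exact absurd hq (by simp)
  -- distinctness of the triangles
  have ninA : ∀ x ∈ A, x ∉ ({a, b, c, w} : Finset V) := by
    intro x hx h
    obtain ⟨x1, x2, x3, x4, -, -⟩ := dA x hx
    simp only [Finset.mem_insert, Finset.mem_singleton] at h
    tauto
  have ninB : ∀ x ∈ B, x ∉ ({a, b, c, w} : Finset V) := by
    intro x hx h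
    obtain ⟨x1, x2, x3, x4, -, -⟩ := dB x hx
    simp only [Finset.mem_insert, Finset.mem_singleton] at h
    tauto
  have ninC : ∀ x ∈ C, x ∉ ({a, b, c, w} : Finset V) := by
    intro x hx h
    obtain ⟨x1, x2, x3, x4, -, -⟩ := dC x hx
    simp only [Finset.mem_insert, Finset.mem_singleton] at h
    tauto
  have nAB : ∀ τ τ' : Finset V, G.IsNClique 3 τ → G.IsNClique 3 τ' → (∃ u ∈ τ, u ∈ A) →
      (∃ u ∈ τ', u ∈ B) → τ ≠ τ' := by
    rintro τ τ' hτ - ⟨u, hu, huA⟩ ⟨v, hv, hvB⟩ rfl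
    have hne : u ≠ v := by
      rintro rfl
      exact (dA u huA).2.2.2.2.1 hvB
    have hadj := hτ.isClique hu hv hne
    have h := hA u huA v hadj
    obtain ⟨x1, x2, x3, x4, x5, x6⟩ := dB v hvB
    simp only [Set.mem_union, Set.mem_insert_iff, Set.mem_singleton_iff] at h
    tauto
  have nAC : ∀ τ τ' : Finset V, G.IsNClique 3 τ → G.IsNClique 3 τ' → (∃ u ∈ τ, u ∈ A) →
      (∃ u ∈ τ', u ∈ C) → τ ≠ τ' := by
    rintro τ τ' hτ - ⟨u, hu, huA⟩ ⟨v, hv, hvB⟩ rfl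
    have hne : u ≠ v := by
      rintro rfl
      exact (dA u huA).2.2.2.2.2 hvB
    have hadj := hτ.isClique hu hv hne
    have h := hA u huA v hadj
    obtain ⟨x1, x2, x3, x4, x5, x6⟩ := dC v hvB
    simp only [Set.mem_union, Set.mem_insert_iff, Set.mem_singleton_iff] at h
    tauto
  have nBC : ∀ τ τ' : Finset V, G.IsNClique 3 τ → G.IsNClique 3 τ' → (∃ u ∈ τ, u ∈ B) →
      (∃ u ∈ τ', u ∈ C) → τ ≠ τ' := by
    rintro τ τ' hτ - ⟨u, hu, huB⟩ ⟨v, hv, hvC⟩ rfl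
    have hne : u ≠ v := by
      rintro rfl
      exact (dB u huB).2.2.2.2.2 hvC
    have hadj := hτ.isClique hu hv hne
    have h := hB u huB v hadj
    obtain ⟨x1, x2, x3, x4, x5, x6⟩ := dC v hvC
    simp only [Set.mem_union, Set.mem_insert_iff, Set.mem_singleton_iff] at h
    tauto
  have nX : ∀ (X : Set V), (∀ x ∈ X, x ∉ ({a, b, c, w} : Finset V)) → ∀ τ τ' : Finset V,
      G.IsNClique 3 τ → G.IsNClique 3 τ' → (∃ u ∈ τ, u ∈ X) → τ' ⊆ {a, b, c, w} → τ ≠ τ' := by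
    rintro X hX τ τ' - - ⟨u, hu, huX⟩ hsub rfl
    exact hX u huX (hsub hu)
  have hconf : conflict (t1 s1 d) (t2 s2 d) (t3 s3 d) (bw s1 s2 s3 d) (bc s1 s2 s3 d) = false := by
    unfold conflict
    rw [TOK.conf hF k1 k2 nAB, TOK.conf hF k1 k3 nAC, TOK.conf hF k2 k3 nBC,
      TOK.conf hF k1 kb (fun τ τ' x y z z' => nX A ninA τ τ' x y z z'.1),
      TOK.conf hF k2 kb (fun τ τ' x y z z' => nX B ninB τ τ' x y z z'.1),
      TOK.conf hF k3 kb (fun τ τ' x y z z' => nX C ninC τ τ' x y z z'.1),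
      TOK.conf hF k1 kc (nX A ninA), TOK.conf hF k2 kc (nX B ninB), TOK.conf hF k3 kc (nX C ninC)]
    rfl
  unfold good at hgood
  rw [← hdd] at hgood
  rw [hcons, htwo, hconf] at hgood
  simp only [Bool.not_true, Bool.or_false, Bool.false_or, List.any_eq_true] at hgood
  obtain ⟨s, hs, hdom⟩ := hgood
  refine ⟨s, hs, ?_⟩
  unfold dom at hdom
  simp only [Bool.and_eq_true, beq_iff_eq, Nat.ble_eq, List.all_eq_true] at hdom
  obtain ⟨⟨⟨⟨⟨⟨⟨f1, f2⟩, f3⟩, f4⟩, f5⟩, f6⟩, f7⟩, f8⟩ := hdom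
  have flag : ∀ {m n : ℕ} {P : Prop}, e1 m = e1 n → (n = 1 ↔ P) → (m = 1 ↔ P) := by
    intro m n P h h'
    rw [← h', ← e1_eq, ← e1_eq, h]
  refine ⟨hd.ab.trans f4, hd.ac.trans f5, hd.bc.trans f6, flag f1 h3.ab1, flag f2 h2.ab1,
    flag f3 h1.ab1, ?_, ?_⟩
  · intro i j k hm
    have h9 := f8 _ (pat_mem i j k)
    rw [hm] at h9
    simp only [Bool.not_true, Bool.false_or] at h9
    unfold newbit at h9
    simp only [List.any_eq_true, Bool.and_eq_true] at h9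
    obtain ⟨u, -, ⟨g3, g2⟩, g1⟩ := h9
    obtain ⟨v, r1, r2, r3⟩ := rep_ok i j k u
    obtain ⟨φ3, x1, x2, x3, x4⟩ := h3.col i j v (by rw [r1]; exact g3)
    obtain ⟨φ2, y1, y2, y3, y4⟩ := h2.col i k v (by rw [r2]; exact g2)
    obtain ⟨φ1, z1, z2, z3, z4⟩ := h1.col j k v (by rw [r3]; exact g1)
    exact glue hab hac hbc hdisj hA hB hC ⟨z1, z2, z3⟩ ⟨y1, y2, y3⟩ ⟨x1, x2, x3⟩ z4 y4 x4
  · intro hh
    rw [hh] at f7
    simp only [Bool.not_true, Bool.false_or, Bool.or_eq_true] at f7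
    rcases f7 with ((g | g) | g) | g
    · obtain ⟨τ, y1, ⟨u, hu, hu'⟩, y3⟩ := k1.tle g
      exact ⟨τ, y1, ⟨u, hu, Or.inl (Or.inl (Or.inr hu'))⟩, y3⟩
    · obtain ⟨τ, y1, ⟨u, hu, hu'⟩, y3⟩ := k2.tle g
      exact ⟨τ, y1, ⟨u, hu, Or.inl (Or.inr hu')⟩, y3⟩
    · obtain ⟨τ, y1, ⟨u, hu, hu'⟩, y3⟩ := k3.tle g
      exact ⟨τ, y1, ⟨u, hu, Or.inr hu'⟩, y3⟩
    · obtain ⟨τ, y1, ⟨-, hw⟩, y3⟩ := kb.tle g
      exact ⟨τ, y1, ⟨w, hw, Or.inl (Or.inl (Or.inl rfl))⟩, y3⟩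

theorem drawn_sat (hF : Far G) {a b c : V} {S : Set V} (h : Drawn G a b c S) :
    a ≠ b → a ≠ c → b ≠ c → ∃ s ∈ states, Sat G a b c S s := by
  induction h with
  | empty a b c => exact fun h1 h2 h3 => base a b c h1 h2 h3
  | cut a b c w A B C _ _ _ hdisj hA hB hC ih1 ih2 ih3 =>
    intro h1 h2 h3
    obtain ⟨⟨haw, hbw, hcw⟩, -, -, -⟩ := disj_facts hdisj
    obtain ⟨s1, m1, g1⟩ := ih1 h3 hbw hcw
    obtain ⟨s2, m2, g2⟩ := ih2 h2 haw hcw
    obtain ⟨s3, m3, g3⟩ := ih3 h1 haw hbw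
    exact step hF h1 h2 h3 hdisj hA hB hC m1 m2 m3 g1 g2 g3

theorem far_of (h : TrianglesApart G 3) : Far G := by
  intro A B hA hB hne u hu v hv
  have h1 := h A B hA hB hne u hu v hv
  unfold cd
  have h2 : u ≠ v := by
    rintro rfl
    rw [SimpleGraph.edist_self] at h1
    exact absurd h1 (by norm_num)
  have h3 : ¬ G.Adj u v := by
    intro h
    rw [SimpleGraph.edist_eq_one_iff_adj.2 h] at h1
    exact absurd h1 (by norm_num)
  have h4 : ¬ ∃ w, G.Adj u w ∧ G.Adj w v := by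
    rintro ⟨w, k1, k2⟩
    have h5 : G.edist u v ≤ 2 := by
      calc G.edist u v ≤ G.edist u w + G.edist w v := SimpleGraph.edist_triangle
        _ = 1 + 1 := by
            rw [SimpleGraph.edist_eq_one_iff_adj.2 k1, SimpleGraph.edist_eq_one_iff_adj.2 k2]
        _ = 2 := by norm_num
    have h6 := h1.trans h5
    exact absurd h6 (by norm_num)
  rw [if_neg h2, if_neg h3, if_neg h4]

theorem mask_pos : ∀ s ∈ states, ∃ i j k : Fin 3, s.m.testBit (pat i j k) = true := by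
  decide

/-- **Theorem.** -/
theorem colorable_of_partialStacked (hG : PartialStacked G) (h : TrianglesApart G 3) :
    G.Colorable 3 := by
  obtain ⟨a, b, c, hab, hac, hbc, hD⟩ := hG
  obtain ⟨s, hs, hsat⟩ := drawn_sat (far_of h) hD hab hac hbc
  obtain ⟨i, j, k, hm⟩ := mask_pos s hs
  obtain ⟨f, -, -, -, hf⟩ := hsat.col i j k hm
  have hall : ∀ x : V, x ∈ {v | v ≠ a ∧ v ≠ b ∧ v ≠ c} ∪ {a, b, c} := by
    intro x
    simp only [Set.mem_union, Set.mem_ofPred_eq, Set.mem_insert_iff, Set.mem_singleton_iff]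
    tauto
  exact ⟨SimpleGraph.Coloring.mk f fun {u v} huv => hf u (hall u) v (hall v) huv⟩

end Pool.Agent.Lib.MP_8e2345_co.ST
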